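import Mathlib
import Pool.Agent.GAR.SemiLin
import Pool.Agent.GAR.Jung
import Pool.Agent.GAR.Rentschler

set_option autoImplicit false

namespace Pool.Agent.Results.MP_cf7cfc_al.BoundedDegree

open MvPolynomial

/-- **Automorphisms of `R[x, y]` preserving `R`, where `R` is a domain of characteristic zero and
not a field** (`x = X 0`, `y = X 1`, `z` a nonzero non-unit of `R`). Let `P` be the group of ring
automorphisms of `R[x, y]` which map `R` onto `R`. For every `d` and all one-parameter subgroups
`g 0, ..., g (m - 1)` of `P`, only finitely many of the `R`-automorphisms `F n` of `R[x, y]` with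
`F n y = y + z (z x + y ^ n) ^ 2`, `F n (z x + y ^ n) = z x + y ^ n` lie in the group generated by
the triangular elements of `P`, all elements of `P` of degree at most `d` in `x, y` and the
subgroups `g j`. The parameter ring `S` of the one-parameter subgroups is arbitrary. -/
theorem result (R : Type) [CommRing R] [IsDomain R] [CharZero R] (z : R) (hz : z ≠ 0)
    (hu : ¬ IsUnit z) :
    ∃ F : ℕ → (MvPolynomial (Fin 2) R ≃ₐ[R] MvPolynomial (Fin 2) R),
      (∀ n, F n (X 1) = X 1 + C z * (C z * X 0 + X 1 ^ n) ^ 2 ∧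
        F n (C z * X 0 + X 1 ^ n) = C z * X 0 + X 1 ^ n) ∧
      ∀ (d m : ℕ) (S : Type) [CommRing S] [Algebra S R]
        (g : Fin m → (Multiplicative S →*
          (MvPolynomial (Fin 2) R ≃+* MvPolynomial (Fin 2) R))),
        (∀ j, (∀ t, ∃ σ : R ≃+* R, ∀ r, g j t (C r) = C (σ r)) ∧
          ∃ P : Fin 2 → Polynomial (MvPolynomial (Fin 2) R), ∀ (t : S) (i : Fin 2),
            g j (Multiplicative.ofAdd t) (X i) = (P i).eval (C (algebraMap S R t))) →
        {n | (F n : MvPolynomial (Fin 2) R ≃+* MvPolynomial (Fin 2) R) ∈ Subgroup.closure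
          ({φ : MvPolynomial (Fin 2) R ≃+* MvPolynomial (Fin 2) R |
              (∃ σ : R ≃+* R, ∀ r, φ (C r) = C (σ r)) ∧
              ∀ i, ∃ c : R, IsUnit c ∧ ∃ p ∈ supported R {j : Fin 2 | i < j},
                φ (X i) = C c * X i + p} ∪
           {φ : MvPolynomial (Fin 2) R ≃+* MvPolynomial (Fin 2) R |
              (∃ σ : R ≃+* R, ∀ r, φ (C r) = C (σ r)) ∧ ∀ i, (φ (X i)).totalDegree ≤ d} ∪
           ⋃ j, Set.range (g j))}.Finite := by
  refine ⟨fun n => GAR.F hz n, fun n => ⟨GAR.F_X1 hz n, GAR.F_f hz n⟩, ?_⟩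
  intro d m S _ _ g hg
  have hinj : Function.Injective (algebraMap R (AlgebraicClosure (FractionRing R))) := by
    rw [IsScalarTower.algebraMap_eq R (FractionRing R) (AlgebraicClosure (FractionRing R))]
    exact (algebraMap (FractionRing R) (AlgebraicClosure (FractionRing R))).injective.comp
      (IsFractionRing.injective R (FractionRing R))
  exact GAR.finalSemi (AlgebraicClosure (FractionRing R)) hinj
    (GAR.jung_of GAR.rentschler) hz hu d m g hg

end Pool.Agent.Results.MP_cf7cfc_al.BoundedDegree
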