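import Mathlib
import Pool.Agent.GAR.Countable

set_option autoImplicit false

namespace Pool.Agent.Results.MP_cf7cfc_al.CountableFamilies

open MvPolynomial

/-- **Countable families of one-parameter subgroups.** Let `R` be a domain of characteristic
zero (`x = X 0`, `y = X 1`) and `Z` a set of nonzero non-units of `R`, any two of which are
separated by a maximal ideal (`R = k[t]`, `Z = {t - a | a ∈ k}`). Let `d < n`, `2 ≤ n`, and let
`g i` be one-parameter subgroups of the group of `R`-automorphisms of `R[x, y]`. If the family is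
finite (countable), then only finitely (countably) many `z ∈ Z` have the automorphism `F z n`,
`F z n y = y + z (z x + y ^ n) ^ 2`, `F z n (z x + y ^ n) = z x + y ^ n`, in the group generated
by the affine and the triangular automorphisms, all automorphisms of degree at most `d` and all
`g i`. -/
theorem result (R : Type) [CommRing R] [IsDomain R] [CharZero R] :
    ∃ F : R → ℕ → (MvPolynomial (Fin 2) R ≃ₐ[R] MvPolynomial (Fin 2) R),
      (∀ z, z ≠ 0 → ∀ n, F z n (X 1) = X 1 + C z * (C z * X 0 + X 1 ^ n) ^ 2 ∧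
        F z n (C z * X 0 + X 1 ^ n) = C z * X 0 + X 1 ^ n) ∧
      ∀ Z : Set R, (∀ z ∈ Z, z ≠ 0 ∧ ¬ IsUnit z) →
        (∀ z ∈ Z, ∀ z' ∈ Z, z ≠ z' → ∃ M : Ideal R, M.IsMaximal ∧ z ∈ M ∧ z' ∉ M) →
        ∀ d n : ℕ, d < n → 2 ≤ n →
        ∀ (ι S : Type) [CommRing S] [Algebra S R]
          (g : ι → (Multiplicative S →*
            (MvPolynomial (Fin 2) R ≃ₐ[R] MvPolynomial (Fin 2) R))),
          (∀ j, ∃ P : Fin 2 → Polynomial (MvPolynomial (Fin 2) R), ∀ (t : S) (i : Fin 2),
            g j (Multiplicative.ofAdd t) (X i) = (P i).eval (C (algebraMap S R t))) →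
          (Finite ι → {z | z ∈ Z ∧ F z n ∈ Subgroup.closure
            ({φ : MvPolynomial (Fin 2) R ≃ₐ[R] MvPolynomial (Fin 2) R |
                ∀ i, (φ (X i)).totalDegree ≤ 1} ∪
             {φ : MvPolynomial (Fin 2) R ≃ₐ[R] MvPolynomial (Fin 2) R |
                ∀ i, ∃ c : R, IsUnit c ∧ ∃ p ∈ supported R {j : Fin 2 | i < j},
                  φ (X i) = C c * X i + p} ∪
             {φ : MvPolynomial (Fin 2) R ≃ₐ[R] MvPolynomial (Fin 2) R |
                ∀ i, (φ (X i)).totalDegree ≤ d} ∪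
             ⋃ j, Set.range (g j))}.Finite) ∧
          (Countable ι → {z | z ∈ Z ∧ F z n ∈ Subgroup.closure
            ({φ : MvPolynomial (Fin 2) R ≃ₐ[R] MvPolynomial (Fin 2) R |
                ∀ i, (φ (X i)).totalDegree ≤ 1} ∪
             {φ : MvPolynomial (Fin 2) R ≃ₐ[R] MvPolynomial (Fin 2) R |
                ∀ i, ∃ c : R, IsUnit c ∧ ∃ p ∈ supported R {j : Fin 2 | i < j},
                  φ (X i) = C c * X i + p} ∪
             {φ : MvPolynomial (Fin 2) R ≃ₐ[R] MvPolynomial (Fin 2) R |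
                ∀ i, (φ (X i)).totalDegree ≤ d} ∪
             ⋃ j, Set.range (g j))}.Countable) := by
  classical
  refine ⟨fun z n => if hz : z ≠ 0 then GAR.F hz n else 1, fun z hz n => ?_, ?_⟩
  · have e : (if hz : z ≠ 0 then GAR.F hz n else 1) = GAR.F hz n := dif_pos hz
    change (if hz : z ≠ 0 then GAR.F hz n else 1) (X 1) = _ ∧
      (if hz : z ≠ 0 then GAR.F hz n else 1) (C z * X 0 + X 1 ^ n) = _
    rw [e]
    exact ⟨GAR.F_X1 hz n, GAR.F_f hz n⟩
  intro Z hZ1 hZ2 d n hdn hn ι S _ _ g hg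
  set K := AlgebraicClosure (FractionRing R) with hK
  have hinj : Function.Injective (algebraMap R K) := by
    rw [IsScalarTower.algebraMap_eq R (FractionRing R) (AlgebraicClosure (FractionRing R))]
    exact (algebraMap (FractionRing R) (AlgebraicClosure (FractionRing R))).injective.comp
      (IsFractionRing.injective R (FractionRing R))
  have jung : ∀ φ : GAR.Aut2 K, φ ∈ GAR.affG K ⊔ GAR.triG K := GAR.jung_of GAR.rentschler
  choose P hP using hg
  have hal : ∀ j, ∃ al : GAR.Aut2 K, al ∈ GAR.affG K ⊔ GAR.triG K ∧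
      ∀ t, GAR.act (GAR.bc K (g j t)) (GAR.vB al) = GAR.vB al := fun j =>
    GAR.oneParam_fix (K := K) (P j) (g j) (hP j)
  choose al hal1 hal2 using hal
  have hdeg : ∀ φ : GAR.Aut2 R, (∀ i, (φ (X i)).totalDegree ≤ d) →
      GAR.dA (GAR.bc K φ) ≤ max 1 d := by
    intro φ h
    refine max_le ?_ ?_
    · rw [GAR.bc_X]
      exact ((GAR.totalDegree_map_le' _).trans (h 0)).trans (le_max_right _ _)
    · rw [GAR.bc_X]
      exact ((GAR.totalDegree_map_le' _).trans (h 1)).trans (le_max_right _ _)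
  set A := Subgroup.closure ({φ : MvPolynomial (Fin 2) R ≃ₐ[R] MvPolynomial (Fin 2) R |
                ∀ i, (φ (X i)).totalDegree ≤ 1} ∪
             {φ : MvPolynomial (Fin 2) R ≃ₐ[R] MvPolynomial (Fin 2) R |
                ∀ i, ∃ c : R, IsUnit c ∧ ∃ p ∈ supported R {j : Fin 2 | i < j},
                  φ (X i) = C c * X i + p} ∪
             {φ : MvPolynomial (Fin 2) R ≃ₐ[R] MvPolynomial (Fin 2) R |
                ∀ i, (φ (X i)).totalDegree ≤ d} ∪
             ⋃ j, Set.range (g j)) with hA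
  obtain ⟨S0, h1, h2, f, hf⟩ := GAR.inj_of_family (K := K) hinj (max 1 d) (le_max_left _ _)
    (fun j => GAR.vB (al j)) (fun j => GAR.reach_vB (hal1 j))
      ({φ : MvPolynomial (Fin 2) R ≃ₐ[R] MvPolynomial (Fin 2) R |
                ∀ i, (φ (X i)).totalDegree ≤ 1} ∪
             {φ : MvPolynomial (Fin 2) R ≃ₐ[R] MvPolynomial (Fin 2) R |
                ∀ i, ∃ c : R, IsUnit c ∧ ∃ p ∈ supported R {j : Fin 2 | i < j},
                  φ (X i) = C c * X i + p} ∪
             {φ : MvPolynomial (Fin 2) R ≃ₐ[R] MvPolynomial (Fin 2) R |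
                ∀ i, (φ (X i)).totalDegree ≤ d} ∪
             ⋃ j, Set.range (g j)) (by
      rintro φ (((h | h) | h) | h)
      · exact Or.inl (GAR.bc_affine K h)
      · exact Or.inr (Or.inl (GAR.bc_triangular K h))
      · exact Or.inr (Or.inr (Or.inl ⟨jung _, hdeg φ h⟩))
      · obtain ⟨j, x, rfl⟩ := Set.mem_iUnion.1 h
        exact Or.inr (Or.inr (Or.inr ⟨j, hal2 j x⟩))) n (by omega) Z
      (fun z hz => (hZ1 z hz).2) hZ2
  have hset : {z | z ∈ Z ∧ (fun z n => if hz : z ≠ 0 then GAR.F hz n else 1) z n ∈ A} =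
      {z : R | z ∈ Z ∧ ∃ hz : z ≠ 0, GAR.F hz n ∈ A} := by
    ext z
    constructor
    · rintro ⟨hz, h⟩
      refine ⟨hz, (hZ1 z hz).1, ?_⟩
      have e : (if hz : z ≠ 0 then GAR.F hz n else 1) = GAR.F (hZ1 z hz).1 n :=
        dif_pos (hZ1 z hz).1
      rw [← e]; exact h
    · rintro ⟨hz, hz0, h⟩
      refine ⟨hz, ?_⟩
      change (if hz : z ≠ 0 then GAR.F hz n else 1) ∈ A
      rw [dif_pos hz0]; exact h
  rw [hset]
  constructor
  · intro hι
    have := (h1 hι).to_subtype
    exact Set.finite_coe_iff.1 (Finite.of_injective f hf)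
  · intro hι
    have := (h2 hι).to_subtype
    exact Set.countable_coe_iff.1 hf.countable

end Pool.Agent.Results.MP_cf7cfc_al.CountableFamilies
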