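import Mathlib
import Pool.Agent.GAR.ArtPos
import Pool.Agent.GAR.JungReg
import Pool.Agent.GAR.NonArt
import Pool.Agent.GAR.NilFG

set_option autoImplicit false

namespace Pool.Agent.Results.MP_cf7cfc_al.Criterion

open MvPolynomial

theorem quotient_dim {R : Type*} [CommRing R] (h : ∀ p : Ideal R, p.IsPrime → p.IsMaximal)
    (N : Ideal R) : Ring.KrullDimLE 0 (R ⧸ N) := by
  rw [Ring.krullDimLE_zero_iff]
  intro q hq
  have hs : Function.Surjective (Ideal.Quotient.mk N) := Ideal.Quotient.mk_surjective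
  have h1 := h (q.comap (Ideal.Quotient.mk N)) (Ideal.IsPrime.comap _)
  rcases Ideal.map_eq_top_or_isMaximal_of_surjective _ hs h1 with h2 | h2
  · rw [Ideal.map_comap_of_surjective _ hs] at h2
    exact absurd h2 hq.ne_top
  · rwa [Ideal.map_comap_of_surjective _ hs] at h2

theorem red {R : Type*} [CommRing R] [Algebra ℚ R]
    (h : ∀ p : Ideal R, p.IsPrime → p.IsMaximal) (g : GAR.Aut2 (R ⧸ nilradical R)) :
    g ∈ GAR.TAR (R ⧸ nilradical R) := by
  have := quotient_dim h (nilradical R)
  have : IsReduced (R ⧸ nilradical R) :=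
    (Ideal.isRadical_iff_quotient_reduced _).1 (Ideal.radical_isRadical _)
  exact GAR.jung_reg g

/-- **The criterion for one-parameter subgroups in dimension two.** Let `R` be a commutative
`ℚ`-algebra, `Aff` and `Tri` the sets of the affine and of the triangular automorphisms of
`R[x, y]` over `R` (`x = X 0`, `y = X 1`), and call a homomorphism `g` from the additive group of
`R` to the group of `R`-automorphisms of `R[x, y]` a one-parameter subgroup (`One g`) if the
images of `x` and `y` under `g t` are polynomials in `t`. The group is generated by the affine and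
the triangular automorphisms and finitely many one-parameter subgroups if and only if all prime
ideals of `R` are maximal and the nilradical is finitely generated; and this is also equivalent to
the generation by the affine and the triangular ones and one one-parameter subgroup. -/
theorem result (R : Type*) [CommRing R] [Algebra ℚ R]
    (Aff Tri : Set (MvPolynomial (Fin 2) R ≃ₐ[R] MvPolynomial (Fin 2) R))
    (One : (Multiplicative R →* (MvPolynomial (Fin 2) R ≃ₐ[R] MvPolynomial (Fin 2) R)) → Prop)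
    (hAff : Aff = {φ | ∀ i, (φ (X i)).totalDegree ≤ 1})
    (hTri : Tri = {φ | ∀ i, ∃ c : R, IsUnit c ∧ ∃ p ∈ supported R {j : Fin 2 | i < j},
      φ (X i) = C c * X i + p})
    (hOne : ∀ g, One g ↔ ∃ P : Fin 2 → Polynomial (MvPolynomial (Fin 2) R),
      ∀ (t : R) (i : Fin 2), g (Multiplicative.ofAdd t) (X i) = (P i).eval (C t)) :
    ((∃ (m : ℕ)
        (g : Fin m →
          (Multiplicative R →* (MvPolynomial (Fin 2) R ≃ₐ[R] MvPolynomial (Fin 2) R))),
        (∀ j, One (g j)) ∧ Subgroup.closure (Aff ∪ Tri ∪ ⋃ j, Set.range (g j)) = ⊤) ↔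
      (∀ p : Ideal R, p.IsPrime → p.IsMaximal) ∧ (nilradical R).FG) ∧
    ((∃ g : Multiplicative R →* (MvPolynomial (Fin 2) R ≃ₐ[R] MvPolynomial (Fin 2) R),
        One g ∧ Subgroup.closure (Aff ∪ Tri ∪ Set.range g) = ⊤) ↔
      (∀ p : Ideal R, p.IsPrime → p.IsMaximal) ∧ (nilradical R).FG) := by
  have eAff : Aff = GAR.affR R := hAff
  have eTri : Tri = GAR.triR R := hTri
  have eOne : ∀ g, One g ↔ GAR.IsOne g := hOne
  rw [eAff, eTri]
  have h13 : (∃ (m : ℕ) (g : Fin m → (Multiplicative R →* GAR.Aut2 R)),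
      (∀ j, One (g j)) ∧
        Subgroup.closure (GAR.affR R ∪ GAR.triR R ∪ ⋃ j, Set.range (g j)) = ⊤) →
      (∀ p : Ideal R, p.IsPrime → p.IsMaximal) ∧ (nilradical R).FG := by
    rintro ⟨m, g, hg, h⟩
    have hg' : ∀ j, GAR.IsOne (g j) := fun j => (eOne _).1 (hg j)
    refine ⟨fun p hp => ?_, GAR.nil_fg g hg' h⟩
    by_contra hmax
    exact GAR.non_art p hmax m g hg' h
  have h32 : (∀ p : Ideal R, p.IsPrime → p.IsMaximal) ∧ (nilradical R).FG →
      ∃ g : Multiplicative R →* GAR.Aut2 R,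
        One g ∧ Subgroup.closure (GAR.affR R ∪ GAR.triR R ∪ Set.range g) = ⊤ := by
    rintro ⟨h, hfg⟩
    obtain ⟨g, hg, h'⟩ := GAR.pos_one hfg (red h)
    exact ⟨g, (eOne g).2 hg, h'⟩
  have h21 : (∃ g : Multiplicative R →* GAR.Aut2 R,
      One g ∧ Subgroup.closure (GAR.affR R ∪ GAR.triR R ∪ Set.range g) = ⊤) →
      ∃ (m : ℕ) (g : Fin m → (Multiplicative R →* GAR.Aut2 R)), (∀ j, One (g j)) ∧
        Subgroup.closure (GAR.affR R ∪ GAR.triR R ∪ ⋃ j, Set.range (g j)) = ⊤ := by
    rintro ⟨g, hg, h⟩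
    refine ⟨1, fun _ => g, fun _ => hg, ?_⟩
    rw [Set.iUnion_const]
    exact h
  exact ⟨⟨h13, fun h => h21 (h32 h)⟩, ⟨fun h => h13 (h21 h), h32⟩⟩

end Pool.Agent.Results.MP_cf7cfc_al.Criterion
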