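import Mathlib
import Pool.Agent.GAR.FreeIdx

set_option autoImplicit false

namespace Pool.Agent.Results.MP_cf7cfc_al.FreeQuotient

open MvPolynomial

section Defs
variable (k : Type*) [Field k] (n : ℕ)

/-- The automorphisms of `k[x_0, ..., x_(n-1)]` over `k`, that is, of affine `n`-space. -/
abbrev Aut := MvPolynomial (Fin n) k ≃ₐ[k] MvPolynomial (Fin n) k

/-- The subgroup of all automorphisms of `k[x_0, ..., x_(n-1)]` which map the subring
`k[x_2, ..., x_(n-1)]` onto itself: the automorphisms of affine `n`-space which preserve the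
projection to the last `n - 2` coordinates. -/
def fibration : Subgroup (Aut k n) where
  carrier := {φ | ∀ p, p ∈ supported k {i : Fin n | 2 ≤ (i : ℕ)} ↔
    φ p ∈ supported k {i : Fin n | 2 ≤ (i : ℕ)}}
  mul_mem' := fun {a b} ha hb p => (hb p).trans (ha (b p))
  one_mem' := fun _ => Iff.rfl
  inv_mem' := fun {a} ha p => by
    have h := ha (a⁻¹ p)
    have h2 : a (a⁻¹ p) = p := by
      change (a * a⁻¹) p = p
      rw [mul_inv_cancel]; rfl
    rw [h2] at h
    exact h.symm

/-- The group `G` of the automorphisms of affine `n`-space which preserve the projection to the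
last `n - 2` coordinates. -/
def G : Type _ := ↥(fibration k n)

/-- The group structure of `G`: composition. -/
noncomputable instance : Group (G k n) := inferInstanceAs (Group (fibration k n))

variable {k n}

/-- The automorphism of `k[x_0, ..., x_(n-1)]` given by an element of `G`. -/
def toAut (φ : G k n) : Aut k n := Subtype.val φ

/-- `φ` fixes the coordinates `x_2, ..., x_(n-1)` of the base. -/
def OverBase (φ : G k n) : Prop := ∀ i : Fin n, 2 ≤ (i : ℕ) → toAut φ (X i) = X i

/-- `φ` is triangular: `φ x_i = c_i x_i + p_i`, `c_i` in `k`, not `0`, `p_i` a polynomial in the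
`x_j`, `j > i`. -/
def Triangular (φ : G k n) : Prop :=
  ∀ i, ∃ c : k, c ≠ 0 ∧ ∃ p ∈ supported k {j : Fin n | i < j}, toAut φ (X i) = C c * X i + p

/-- The polynomials `φ x_0` and `φ x_1` have degree at most `D` in `x_0, x_1`. -/
def DegLe (hn : 3 ≤ n) (D : ℕ) (φ : G k n) : Prop :=
  ∀ i : Fin n, (i : ℕ) < 2 → ∀ s ∈ (toAut φ (X i)).support,
    s ⟨0, by omega⟩ + s ⟨1, by omega⟩ ≤ D

/-- `φ` belongs to a one-parameter subgroup: the image of a homomorphism from `(k, +)` to `G`
(which need not be algebraic). -/
def OneParameter (φ : G k n) : Prop := ∃ g : Multiplicative k →* G k n, φ ∈ Set.range g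

/-- `φ` has roots of all orders in `G`. -/
def Divisible (φ : G k n) : Prop := ∀ m : ℕ, m ≠ 0 → ∃ ψ : G k n, ψ ^ m = φ

/-- The powers of `φ` have bounded degree in `x_0, x_1`. -/
def BoundedPowers (hn : 3 ≤ n) (φ : G k n) : Prop := ∃ D : ℕ, ∀ m : ℕ, DegLe hn D (φ ^ m)

end Defs

/-- **A free quotient of infinite rank.** Let `k` be a field of characteristic zero, `n ≥ 3`. The
group `G` of the automorphisms of affine `n`-space which preserve the projection to `n - 2`
coordinates has a homomorphism `χ` onto the free group on `t_0, t_1, ...`, surjective already on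
the automorphisms which fix these `n - 2` coordinates, such that
`χ φ = 1` if `φ` is triangular;
`χ φ = 1` if `φ` has degree at most one in `x_0, x_1` (as the affine automorphisms in `G` and all
automorphisms of the base do);
`χ φ = 1` if `φ` belongs to a one-parameter subgroup of `G` (any homomorphism from `(k, +)`);
`χ φ = 1` if `φ` has roots of all orders in `G`;
`χ φ = 1` if the powers of `φ` have bounded degree in `x_0, x_1`;
`χ φ` is in the subgroup generated by the `t_j`, `j + 2 ≤ D`, if `φ` has degree at most `D` in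
`x_0, x_1`.
So for every `D` and every finite set `S` in `G` the normal subgroup generated by `S`, the kernel
of `χ` and all elements of degree at most `D` in `x_0, x_1` has infinite index in `G`. -/
theorem result (k : Type*) [Field k] [CharZero k] (n : ℕ) (hn : 3 ≤ n) :
    ∃ χ : G k n →* FreeGroup ℕ,
      (∀ y : FreeGroup ℕ, ∃ φ : G k n, OverBase φ ∧ χ φ = y) ∧
      (∀ φ : G k n, Triangular φ ∨ DegLe hn 1 φ ∨ OneParameter φ ∨ Divisible φ ∨
        BoundedPowers hn φ → χ φ = 1) ∧
      (∀ (D : ℕ) (φ : G k n), DegLe hn D φ →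
        χ φ ∈ Subgroup.closure (FreeGroup.of '' {j : ℕ | j + 2 ≤ D})) ∧
      (∀ (D : ℕ) (S : Set (G k n)), S.Finite → (Subgroup.normalClosure
        (S ∪ {φ : G k n | χ φ = 1 ∨ DegLe hn D φ})).index = 0) := by
  obtain ⟨χ, h1, h2, h3, h4, h5, h6, h7⟩ := GAR.free_quotient k n hn
  refine ⟨χ, h1, ?_, h7, ?_⟩
  · rintro φ (h | h | ⟨g, t, rfl⟩ | h | h)
    · exact h2 φ h
    · exact h3 φ h
    · exact h4 g t
    · exact h5 φ h
    · exact h6 φ h
  intro D S hS
  refine GAR.index_zero χ (fun y => ?_) D S _ hS ?_
  · obtain ⟨φ, -, hφ⟩ := h1 y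
    exact ⟨φ, hφ⟩
  · rintro φ (hφ | hφ)
    · exact Eq.subst (motive := fun z => z ∈ Subgroup.closure (FreeGroup.of '' {j : ℕ | j + 2 ≤ D}))
        (Eq.symm hφ) (one_mem _)
    · exact h7 D φ hφ

end Pool.Agent.Results.MP_cf7cfc_al.FreeQuotient
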